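import Pool.Agent.Q66.SH.Stm

set_option autoImplicit false

open Filter Topology
open scoped ENNReal

namespace Pool.Agent.Q254.SH

open Pool.Agent.Q66.SH

theorem t_CUT (hQ : S_QN) (hX : S_APX) (hP : S_PB) (hR : S_RK) : S_CUT := by
  intro H _ _ _ b p hp η hη k
  obtain ⟨K, R, hq⟩ := hQ H p hp
  obtain ⟨p1, p2, p3, p4, p5, p6⟩ := hP H b
  obtain ⟨r1, r2, r3, r4, r5⟩ := hR H
  have hK1 := hq.one_le
  have hKt := hq.K_ne
  have hK0 : K ≠ 0 := fun h => by
    rw [h] at hK1
    exact absurd hK1 (by simp)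
  set η' : ℝ≥0∞ := min η 1 with hη'
  have hη'0 : η' ≠ 0 := by
    rw [hη']
    exact (lt_min (pos_iff_ne_zero.2 hη) one_pos).ne'
  have hη't : η' ≠ ∞ := ne_top_of_le_ne_top ENNReal.one_ne_top (min_le_right _ _)
  have hη2 : η' / 2 ≠ 0 := (ENNReal.div_pos hη'0 (by norm_num)).ne'
  have hη2t : η' / 2 ≠ ∞ := ENNReal.div_ne_top hη't (by norm_num)
  set B : ℝ≥0∞ := K ^ 3 * R k * 3 with hB
  have hBt : B + 1 ≠ ∞ := by
    rw [hB]
    refine ENNReal.add_ne_top.2 ⟨ENNReal.mul_ne_top (ENNReal.mul_ne_top (ENNReal.pow_ne_top hKt)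
      (hq.R_ne k)) (by norm_num), ENNReal.one_ne_top⟩
  have hB0 : B + 1 ≠ 0 := by
    intro h
    rw [add_eq_zero] at h
    exact one_ne_zero h.2
  set d : ℝ≥0∞ := η' / 2 / (B + 1) with hd
  have hd0 : d ≠ 0 := (ENNReal.div_pos hη2 hBt).ne'
  have hdt : d ≠ ∞ := ENNReal.div_ne_top hη2t hB0
  have hBd : B * d ≤ η' / 2 := by
    calc B * d ≤ (B + 1) * d := mul_le_mul_left (le_self_add) d
      _ = η' / 2 := ENNReal.mul_div_cancel hB0 hBt
  refine ⟨d.toReal, ENNReal.toReal_pos hd0 hdt, ?_⟩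
  intro C r hC h1 h2
  have hlim := hX H b p hp C r hC
  have hpos : 0 < η' / 2 / K := ENNReal.div_pos hη2 hKt
  obtain ⟨l, hl1, hl2⟩ := ((hlim.eventually_lt_const hpos).and (eventually_ge_atTop k)).exists
  refine ⟨l, hl2, ?_⟩
  have hid : C - (P b l - P b k) * C * (P b l - P b k) = (C - P b l * C * P b l) +
      ((P b l * C * P b k) + ((P b k * C * P b l) + (-(P b k * C * P b k)))) := by noncomm_ring
  have hle : ∀ T : H →L[ℂ] H, RankLE T k → ‖T‖ ≤ d.toReal → N p T ≤ R k * d := by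
    intro T hT hn
    refine (hq.fin k T hT).trans ?_
    have : ‖T‖ₑ ≤ d := by
      rw [← ofReal_norm, ← ENNReal.ofReal_toReal hdt]
      exact ENNReal.ofReal_le_ofReal hn
    gcongr
  have ha : N p (P b l * C * P b k) ≤ R k * d := by
    apply hle
    · have := r1 k (P b l * C) (P b k) 1 (p5 k)
      simpa using this
    · rw [mul_assoc]
      calc ‖P b l * (C * P b k)‖ ≤ ‖P b l‖ * ‖C * P b k‖ := norm_mul_le _ _
        _ ≤ 1 * d.toReal := mul_le_mul (p3 l) h1 (norm_nonneg _) zero_le_one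
        _ = d.toReal := one_mul _
  have hb : N p (P b k * C * P b l) ≤ R k * d := by
    apply hle
    · have := r1 k 1 (P b k) (C * P b l) (p5 k)
      rw [one_mul, ← mul_assoc] at this
      exact this
    · calc ‖P b k * C * P b l‖ ≤ ‖P b k * C‖ * ‖P b l‖ := norm_mul_le _ _
        _ ≤ d.toReal * 1 := mul_le_mul h2 (p3 l) (norm_nonneg _) ENNReal.toReal_nonneg
        _ = d.toReal := mul_one _
  have hc : N p (-(P b k * C * P b k)) ≤ R k * d := by
    apply hle
    · refine r4 k _ ?_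
      have := r1 k (P b k * C) (P b k) 1 (p5 k)
      simpa using this
    · rw [norm_neg]
      calc ‖P b k * C * P b k‖ ≤ ‖P b k * C‖ * ‖P b k‖ := norm_mul_le _ _
        _ ≤ d.toReal * 1 := mul_le_mul h2 (p3 k) (norm_nonneg _) ENNReal.toReal_nonneg
        _ = d.toReal := mul_one _
  rw [hid]
  have hK13 : K ^ 2 ≤ K ^ 3 := pow_le_pow_right' hK1 (by norm_num)
  calc N p ((C - P b l * C * P b l) +
      ((P b l * C * P b k) + ((P b k * C * P b l) + (-(P b k * C * P b k)))))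
      ≤ K * (N p (C - P b l * C * P b l) + K * (N p (P b l * C * P b k) +
        K * (N p (P b k * C * P b l) + N p (-(P b k * C * P b k))))) := by
        refine (hq.add _ _).trans ?_
        gcongr
        refine (hq.add _ _).trans ?_
        gcongr
        exact hq.add _ _
    _ ≤ K * (η' / 2 / K + K * (R k * d + K * (R k * d + R k * d))) := by
        gcongr
    _ = K * (η' / 2 / K) + (K ^ 2 * (R k * d) + K ^ 3 * (R k * d) + K ^ 3 * (R k * d)) := by ring
    _ ≤ K * (η' / 2 / K) + (K ^ 3 * (R k * d) + K ^ 3 * (R k * d) + K ^ 3 * (R k * d)) := by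
        gcongr
    _ = η' / 2 + B * d := by
        rw [ENNReal.mul_div_cancel hK0 hKt, hB]
        ring
    _ ≤ η' / 2 + η' / 2 := by gcongr
    _ = η' := ENNReal.add_halves _
    _ ≤ η := min_le_left _ _

end Pool.Agent.Q254.SH

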